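import Mathlib
import Pool.Agent.J6H73.PG.Conv

/-!
# MP_5b044e_pr, Q1: one-player percolation games have a limit value

Every one-player percolation game on `ℤ^d` has a limit value, with no orientation assumption.
Independence of the payoffs (the case asked for) is not needed, stationarity suffices.
-/

set_option autoImplicit false

open MeasureTheory Filter Topology

namespace Pool.Agent.Results.MP_5b044e_pr.OnePlayerLimitValue

/-- A percolation game on `ℤ^d` with action sets `I` (Player 1) and `J` (Player 2) over the
environment space `Ω`. Neither independence nor ergodicity is required, so this structure is more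
general than the one in the problem (for payoffs which are i.i.d. over `ℤ^d`, in particular). -/
structure PercolationGame (d : ℕ) (I J Ω : Type*) [MeasurableSpace Ω] where
  /-- the law of the environment -/
  P : Measure Ω
  isProb : IsProbabilityMeasure P
  /-- the shifts of the environment -/
  τ : (Fin d → ℤ) → Ω → Ω
  preserving : ∀ z, MeasurePreserving (τ z) P P
  τ_add : ∀ z z' ω, τ (z + z') ω = τ z (τ z' ω)
  /-- the payoffs `g_ω(z, i, j)` -/
  g : Ω → (Fin d → ℤ) → I → J → ℝ
  measurable : ∀ z i j, Measurable fun ω => g ω z i j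
  bounded : ∃ C : ℝ, ∀ z i j, ∀ᵐ ω ∂P, |g ω z i j| ≤ C
  stationary : ∀ ω z z' i j, g (τ z ω) z' i j = g ω (z + z') i j
  /-- the transition map -/
  q : I → J → (Fin d → ℤ)

section strategies

variable {I J : Type*}

/-- The history after `m` stages (the list of the action pairs played so far) when Player 1 uses
the strategy `σ` (a map from histories to actions) and Player 2 uses the strategy `ρ` (a map from
histories and the current action of Player 1 to actions). -/
def history (σ : List (I × J) → I) (ρ : List (I × J) → I → J) : ℕ → List (I × J)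
  | 0 => []
  | m + 1 => history σ ρ m ++ [(σ (history σ ρ m), ρ (history σ ρ m) (σ (history σ ρ m)))]

end strategies

namespace PercolationGame

variable {d : ℕ} {I J Ω : Type*} [MeasurableSpace Ω] (G : PercolationGame d I J Ω)

/-- The position after the history `h` has been played from `z`. -/
def position (z : Fin d → ℤ) (h : List (I × J)) : Fin d → ℤ :=
  z + (h.map fun a => G.q a.1 a.2).sum

/-- The payoff of the stage which follows the first `m` stages. -/
def stagePayoff (ω : Ω) (z : Fin d → ℤ) (σ : List (I × J) → I) (ρ : List (I × J) → I → J)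
    (m : ℕ) : ℝ :=
  G.g ω (G.position z (history σ ρ m)) (σ (history σ ρ m))
    (ρ (history σ ρ m) (σ (history σ ρ m)))

/-- The average payoff over `n` stages. -/
noncomputable def averagePayoff (n : ℕ) (ω : Ω) (z : Fin d → ℤ) (σ : List (I × J) → I)
    (ρ : List (I × J) → I → J) : ℝ :=
  (∑ m ∈ Finset.range n, G.stagePayoff ω z σ ρ m) / n

/-- The value of the `n`-stage game started at `z`: the max-min of the average payoff. -/
noncomputable def value (n : ℕ) (ω : Ω) (z : Fin d → ℤ) : ℝ :=
  ⨆ σ : List (I × J) → I, ⨅ ρ : List (I × J) → I → J, G.averagePayoff n ω z σ ρ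

/-- The game has a limit value: `v_n(z)` converges almost surely, for each `z`. -/
def HasLimitValue : Prop :=
  ∀ z : Fin d → ℤ, ∀ᵐ ω ∂G.P, ∃ v : ℝ, Tendsto (fun n : ℕ => G.value n ω z) atTop (𝓝 v)

end PercolationGame

open Pool.Agent.J6H73.PG

section proof

variable {d : ℕ} {I J Ω : Type*} [MeasurableSpace Ω] (G : PercolationGame d I J Ω)

private lemma history_length (σ : List (I × J) → I) (ρ : List (I × J) → I → J) (m : ℕ) :
    (history σ ρ m).length = m := by
  induction m with
  | zero => rfl
  | succ m ih => simp [history, ih]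

/-- the total payoff is the payoff of the word of first actions when Player 2 has one action -/
private lemma sum_fst (j0 : J) (hJ : ∀ j : J, j = j0) (ω : Ω) (z : Fin d → ℤ)
    (σ : List (I × J) → I) (ρ : List (I × J) → I → J) (n : ℕ) :
    ∑ m ∈ Finset.range n, G.stagePayoff ω z σ ρ m =
      pay (fun i => G.q i j0) (fun z' i => G.g ω (z + z') i j0) 0
        ((history σ ρ n).map Prod.fst) := by
  have hpos : ∀ h : List (I × J), G.position z h =
      z + (0 + disp (fun i => G.q i j0) (h.map Prod.fst)) := by
    intro h
    unfold PercolationGame.position disp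
    rw [zero_add, List.map_map]
    congr 3
    funext a
    simp [hJ a.2]
  induction n with
  | zero => simp [history, pay]
  | succ n ih =>
    rw [Finset.sum_range_succ, ih]
    simp only [history, List.map_append, List.map_cons, List.map_nil]
    rw [pay_snoc]
    congr 1
    unfold PercolationGame.stagePayoff
    rw [hpos, hJ (ρ _ _)]

/-- the total payoff is the payoff of the word of second actions when Player 1 has one action -/
private lemma sum_snd (i0 : I) (hI : ∀ i : I, i = i0) (ω : Ω) (z : Fin d → ℤ)
    (σ : List (I × J) → I) (ρ : List (I × J) → I → J) (n : ℕ) :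
    ∑ m ∈ Finset.range n, G.stagePayoff ω z σ ρ m =
      pay (fun j => G.q i0 j) (fun z' j => G.g ω (z + z') i0 j) 0
        ((history σ ρ n).map Prod.snd) := by
  have hpos : ∀ h : List (I × J), G.position z h =
      z + (0 + disp (fun j => G.q i0 j) (h.map Prod.snd)) := by
    intro h
    unfold PercolationGame.position disp
    rw [zero_add, List.map_map]
    congr 3
    funext a
    simp [hI a.1]
  induction n with
  | zero => simp [history, pay]
  | succ n ih =>
    rw [Finset.sum_range_succ, ih]
    simp only [history, List.map_append, List.map_cons, List.map_nil]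
    rw [pay_snoc]
    congr 1
    unfold PercolationGame.stagePayoff
    rw [hpos, hI (σ _)]

private lemma history_take_fst (i0 : I) (l : List I) (ρ : List (I × J) → I → J) (n : ℕ)
    (hn : n ≤ l.length) :
    (history (fun h => l.getD h.length i0) ρ n).map Prod.fst = l.take n := by
  induction n with
  | zero => simp [history]
  | succ n ih =>
    simp only [history, List.map_append, List.map_cons, List.map_nil]
    rw [ih (by omega), history_length, List.take_succ_eq_append_getElem (by omega)]
    congr 2
    exact List.getD_eq_getElem _ _ _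

private lemma history_take_snd (j0 : J) (l : List J) (σ : List (I × J) → I) (n : ℕ)
    (hn : n ≤ l.length) :
    (history σ (fun h _ => l.getD h.length j0) n).map Prod.snd = l.take n := by
  induction n with
  | zero => simp [history]
  | succ n ih =>
    simp only [history, List.map_append, List.map_cons, List.map_nil]
    rw [ih (by omega), history_length, List.take_succ_eq_append_getElem (by omega)]
    congr 2
    exact List.getD_eq_getElem _ _ _

private lemma value_player1 [Nonempty I] (j0 : J) (hJ : ∀ j : J, j = j0) (ω : Ω)
    (z : Fin d → ℤ) {C : ℝ} (hC : ∀ z i j, |G.g ω z i j| ≤ C) (n : ℕ) :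
    G.value n ω z =
      best (fun i => G.q i j0) (fun z' i => G.g ω (z + z') i j0) n / n := by
  have hsub : Subsingleton (List (I × J) → I → J) :=
    ⟨fun a b => by funext h i; rw [hJ (a h i), hJ (b h i)]⟩
  have h0 : G.value n ω z =
      ⨆ σ : List (I × J) → I, G.averagePayoff n ω z σ (fun _ _ => j0) := by
    unfold PercolationGame.value
    congr 1
    funext σ
    exact ciInf_subsingleton _ _
  rw [h0]
  refine sup_eq _ _ (fun z' i => hC (z + z') i j0) n _ ?_ ?_
  · intro σ
    refine ⟨⟨(history σ (fun _ _ => j0) n).map Prod.fst, ?_⟩, ?_⟩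
    · rw [List.length_map, history_length]
    · unfold PercolationGame.averagePayoff
      rw [sum_fst G j0 hJ]
  · intro l
    obtain ⟨i0⟩ := ‹Nonempty I›
    refine ⟨fun h => l.1.getD h.length i0, ?_⟩
    unfold PercolationGame.averagePayoff
    rw [sum_fst G j0 hJ, history_take_fst i0 l.1 _ n l.2.ge, List.take_of_length_le l.2.le]

private lemma value_player2 [Nonempty J] (i0 : I) (hI : ∀ i : I, i = i0) (ω : Ω)
    (z : Fin d → ℤ) {C : ℝ} (hC : ∀ z i j, |G.g ω z i j| ≤ C) (n : ℕ) :
    G.value n ω z =
      - (best (fun j => G.q i0 j) (fun z' j => - G.g ω (z + z') i0 j) n / n) := by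
  have hsub : Subsingleton (List (I × J) → I) :=
    ⟨fun a b => by funext h; rw [hI (a h), hI (b h)]⟩
  have hneJ : Nonempty (List (I × J) → I → J) := by
    obtain ⟨j0⟩ := ‹Nonempty J›
    exact ⟨fun _ _ => j0⟩
  set F : (List (I × J) → I → J) → ℝ := fun ρ => G.averagePayoff n ω z (fun _ => i0) ρ with hF
  have h0 : G.value n ω z = ⨅ ρ : List (I × J) → I → J, F ρ := by
    unfold PercolationGame.value
    exact ciSup_subsingleton _ _
  have hword : ∀ ρ, ∃ l : Word J n, F ρ =
      pay (fun j => G.q i0 j) (fun z' j => G.g ω (z + z') i0 j) 0 l.1 / n := by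
    intro ρ
    refine ⟨⟨(history (fun _ => i0) ρ n).map Prod.snd, ?_⟩, ?_⟩
    · rw [List.length_map, history_length]
    · simp only [hF]
      unfold PercolationGame.averagePayoff
      rw [sum_snd G i0 hI]
  have hbdd : BddBelow (Set.range F) := by
    refine ⟨-(C * n / n), ?_⟩
    rintro _ ⟨ρ, rfl⟩
    obtain ⟨l, hl⟩ := hword ρ
    rw [hl, ← neg_div]
    refine div_le_div_of_nonneg_right ?_ (Nat.cast_nonneg n)
    have := (abs_le.mp (pay_abs (fun j => G.q i0 j) (fun z' j => G.g ω (z + z') i0 j) C
      (fun z' j => hC (z + z') i0 j) l.1 0)).1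
    rwa [l.2] at this
  rw [h0, iInf_eq_neg F hbdd]
  congr 1
  refine sup_eq _ _ (C := C) (fun z' j => by rw [abs_neg]; exact hC (z + z') i0 j) n _ ?_ ?_
  · intro ρ
    obtain ⟨l, hl⟩ := hword ρ
    refine ⟨l, ?_⟩
    rw [hl, pay_neg, neg_div]
  · intro l
    obtain ⟨j0⟩ := ‹Nonempty J›
    refine ⟨fun h _ => l.1.getD h.length j0, ?_⟩
    simp only [hF]
    unfold PercolationGame.averagePayoff
    rw [sum_snd G i0 hI, history_take_snd j0 l.1 _ n l.2.ge, List.take_of_length_le l.2.le,
      pay_neg, neg_div]

end proof

/-- **Every one-player percolation game has a limit value.** The action sets are finite and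
nonempty, one of them is a singleton; no orientation, independence or ergodicity is assumed. -/
theorem result {d : ℕ} {I J Ω : Type*} [MeasurableSpace Ω] [Finite I] [Finite J] [Nonempty I]
    [Nonempty J] (G : PercolationGame d I J Ω) (hone : Nat.card I = 1 ∨ Nat.card J = 1) :
    G.HasLimitValue := by
  intro z
  have := G.isProb
  obtain ⟨C, hC⟩ := G.bounded
  have hC' : ∀ᵐ ω ∂G.P, ∀ z i j, |G.g ω z i j| ≤ C := by
    have hI : Countable I := Finite.to_countable
    have hJ : Countable J := Finite.to_countable
    simp only [ae_all_iff]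
    exact hC
  rcases hone with h | h
  · obtain ⟨hsub, ⟨i0⟩⟩ := Nat.card_eq_one_iff_unique.mp h
    have hI : ∀ i : I, i = i0 := fun i => Subsingleton.elim _ _
    have h1 := conv G.P G.τ G.preserving G.τ_add (fun j => G.q i0 j)
      (fun ω z j => - G.g ω z i0 j) (fun z j => (G.measurable z i0 j).neg) C
      (fun z j => by simpa only [abs_neg] using hC z i0 j)
      (fun ω z z' j => by simp only [G.stationary]) z
    filter_upwards [h1, hC'] with ω hω hb
    obtain ⟨v, hv⟩ := hω
    refine ⟨-v, ?_⟩
    have h2 : (fun n : ℕ => G.value n ω z) = fun n : ℕ =>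
        - (best (fun j => G.q i0 j) (fun z' j => - G.g ω (z + z') i0 j) n / n) := by
      funext n
      exact value_player2 G i0 hI ω z hb n
    rw [h2]
    exact hv.neg
  · obtain ⟨hsub, ⟨j0⟩⟩ := Nat.card_eq_one_iff_unique.mp h
    have hJ : ∀ j : J, j = j0 := fun j => Subsingleton.elim _ _
    have h1 := conv G.P G.τ G.preserving G.τ_add (fun i => G.q i j0)
      (fun ω z i => G.g ω z i j0) (fun z i => G.measurable z i j0) C
      (fun z i => hC z i j0)
      (fun ω z z' i => by simp only [G.stationary]) z
    filter_upwards [h1, hC'] with ω hω hb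
    obtain ⟨v, hv⟩ := hω
    refine ⟨v, ?_⟩
    have h2 : (fun n : ℕ => G.value n ω z) = fun n : ℕ =>
        best (fun i => G.q i j0) (fun z' i => G.g ω (z + z') i j0) n / n := by
      funext n
      exact value_player1 G j0 hJ ω z hb n
    rw [h2]
    exact hv

end Pool.Agent.Results.MP_5b044e_pr.OnePlayerLimitValue
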